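import Mathlib

/-!
# The fixed-point proportion of groups acting on rooted trees (definitions)
-/

set_option autoImplicit false

namespace Pool.Agent.X329.Fpp

open Filter Topology

/-- The set `L_n` of the vertices at distance `n` from the root of the `d`-regular rooted tree: the
words of length `n` in `d` letters. The parent of the word `w` of length `n + 1` is the word
`Fin.init w` of its first `n` letters. -/
abbrev Level (d n : ℕ) : Type := Fin n → Fin d

/-- The group of the automorphisms of the `d`-regular rooted tree: the families of permutations of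
the sets `L_n` which are compatible with taking the parent. -/
def AutT (d : ℕ) : Subgroup (∀ n, Equiv.Perm (Level d n)) where
  carrier := {g | ∀ n (w : Level d (n + 1)), Fin.init (g (n + 1) w) = g n (Fin.init w)}
  one_mem' := fun _ _ => rfl
  mul_mem' := by
    intro g h hg hh n w
    rw [Pi.mul_apply, Pi.mul_apply, Equiv.Perm.mul_apply, Equiv.Perm.mul_apply, hg, hh]
  inv_mem' := by
    intro g hg n w
    rw [Pi.inv_apply, Pi.inv_apply, Equiv.Perm.eq_inv_iff_eq, ← hg]
    congr 1
    exact (g (n + 1)).apply_symm_apply w

/-- The action on the set `L_n`. -/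
def toLevel (d n : ℕ) : AutT d →* Equiv.Perm (Level d n) :=
  (Pi.evalMonoidHom (fun n => Equiv.Perm (Level d n)) n).comp (AutT d).subtype

/-- The image `G_n` of the subgroup `G` of `Aut T` in the group of the permutations of `L_n`. -/
def levelGroup {d : ℕ} (G : Subgroup (AutT d)) (n : ℕ) : Subgroup (Equiv.Perm (Level d n)) :=
  G.map (toLevel d n)

/-- The proportion of the elements of `G_n` which fix at least one vertex of `L_n`. -/
noncomputable def proportion {d : ℕ} (G : Subgroup (AutT d)) (n : ℕ) : ℝ :=
  (Nat.card {g : levelGroup G n // ∃ v : Level d n, (g : Equiv.Perm (Level d n)) v = v} : ℝ) /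
    Nat.card (levelGroup G n)

/-- The fixed-point proportion of `G` is `α`. -/
def HasFPP {d : ℕ} (G : Subgroup (AutT d)) (α : ℝ) : Prop :=
  Tendsto (proportion G) atTop (𝓝 α)

end Pool.Agent.X329.Fpp
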