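import Mathlib
import Pool.Agent.X329.Fpp.Defs

/-!
# The groups
-/

set_option autoImplicit false

namespace Pool.Agent.X329.Fpp

open Filter Topology

variable {d : ℕ} [NeZero d]

/-- Rotation of the first letter. -/
def rot (n : ℕ) (x : Fin d) (w : Level d n) : Level d n :=
  fun j => if (j : ℕ) = 0 then w j + x else w j

/-- The action of the parameters `c` on the words `w`. -/
def act : ∀ (n : ℕ) (_ : ℕ → Bool) (_ _ : Level d n), Level d n
  | 0, _, _, w => w
  | n + 1, i, c, w =>
    if i 0 = true then Fin.cons (w 0 + c 0) (act n (fun j => i (j + 1)) (Fin.tail c) (Fin.tail w))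
    else if w 0 = 0 then Fin.cons (w 0) (act n (fun j => i (j + 1)) (Fin.tail c) (Fin.tail w))
    else Fin.cons (w 0) (rot n (c 0) (Fin.tail w))

theorem rot_add (n : ℕ) (x y : Fin d) (w : Level d n) :
    rot n (x + y) w = rot n x (rot n y w) := by
  funext j
  simp only [rot]
  split_ifs with h
  · rw [add_assoc, add_comm x y]
  · rfl

theorem rot_zero (n : ℕ) (w : Level d n) : rot n 0 w = w := by
  funext j
  simp [rot]

theorem act_add (n : ℕ) : ∀ (i : ℕ → Bool) (c c' w : Level d n),
    act n i (c + c') w = act n i c (act n i c' w) := by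
  induction n with
  | zero => intro i c c' w; rfl
  | succ n ih =>
    intro i c c' w
    have ht : Fin.tail (c + c') = Fin.tail c + Fin.tail c' := rfl
    simp only [act]
    by_cases h : i 0 = true
    · simp only [if_pos h, Fin.cons_zero, Fin.tail_cons, ht, ih, Pi.add_apply]
      rw [add_assoc, add_comm (c 0)]
    · simp only [if_neg h]
      by_cases h0 : w 0 = 0
      · simp only [if_pos h0, Fin.cons_zero, Fin.tail_cons, ht, ih]
      · simp only [if_neg h0, Fin.cons_zero, Fin.tail_cons, Pi.add_apply, rot_add]

theorem act_zero (n : ℕ) : ∀ (i : ℕ → Bool) (w : Level d n), act n i 0 w = w := by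
  induction n with
  | zero => intro i w; rfl
  | succ n ih =>
    intro i w
    have ht : Fin.tail (0 : Level d (n + 1)) = 0 := rfl
    simp only [act, ht, ih, Pi.zero_apply, rot_zero, add_zero, Fin.cons_self_tail, ite_self]

theorem init_cons {n : ℕ} (x : Fin d) (w : Level d (n + 1)) :
    Fin.init (Fin.cons x w : Level d (n + 2)) = (Fin.cons x (Fin.init w) : Level d (n + 1)) := by
  funext j
  refine Fin.cases ?_ (fun j => ?_) j
  · rfl
  · rfl

theorem act_init (n : ℕ) : ∀ (i : ℕ → Bool) (c w : Level d (n + 1)),
    Fin.init (act (n + 1) i c w) = act n i (Fin.init c) (Fin.init w) := by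
  induction n with
  | zero =>
    intro i c w
    exact Subsingleton.elim _ _
  | succ n ih =>
    intro i c w
    have h1 : Fin.init c 0 = c 0 := rfl
    have h2 : Fin.init w 0 = w 0 := rfl
    have h3 : Fin.tail (Fin.init c) = Fin.init (Fin.tail c) := rfl
    have h4 : Fin.tail (Fin.init w) = Fin.init (Fin.tail w) := rfl
    have h5 : Fin.init (rot (n + 1) (c 0) (Fin.tail w)) =
        rot n (c 0) (Fin.init (Fin.tail w)) := rfl
    conv_lhs => rw [act]
    conv_rhs => rw [act]
    rw [h1, h2, h3, h4]
    by_cases h : i 0 = true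
    · rw [if_pos h, if_pos h, init_cons, ih]
    · rw [if_neg h, if_neg h]
      by_cases h0 : w 0 = 0
      · rw [if_pos h0, if_pos h0, init_cons, ih]
      · rw [if_neg h0, if_neg h0, init_cons, h5]

/-- The action as a permutation. -/
def actPerm (n : ℕ) (i : ℕ → Bool) (c : Level d n) : Equiv.Perm (Level d n) where
  toFun := act n i c
  invFun := act n i (-c)
  left_inv w := by rw [← act_add, neg_add_cancel, act_zero]
  right_inv w := by rw [← act_add, add_neg_cancel, act_zero]

/-- The homomorphism of the group of the parameters of level `n`. -/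
def actHom (n : ℕ) (i : ℕ → Bool) : Multiplicative (Level d n) →* Equiv.Perm (Level d n) where
  toFun c := actPerm n i c.toAdd
  map_one' := Equiv.ext fun w => act_zero n i w
  map_mul' c c' := Equiv.ext fun w => act_add n i c.toAdd c'.toAdd w

/-- The first `n` parameters. -/
def restr (d n : ℕ) (c : ℕ → Fin d) : Level d n := fun j => c j

/-- The homomorphism of the group of all parameters to `Aut T`. -/
def autHom (i : ℕ → Bool) : Multiplicative (ℕ → Fin d) →* AutT d where
  toFun c := ⟨fun n => actPerm n i (restr d n c.toAdd), fun n w => act_init n i _ w⟩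
  map_one' := Subtype.ext (funext fun n => Equiv.ext fun w => act_zero n i w)
  map_mul' c c' := Subtype.ext (funext fun n => Equiv.ext fun w => act_add n i _ _ w)

/-- The group with the itinerary `i`. -/
def GG (i : ℕ → Bool) : Subgroup (AutT d) := (autHom i).range

theorem levelGroup_GG (i : ℕ → Bool) (n : ℕ) :
    levelGroup (GG (d := d) i) n = (actHom n i).range := by
  rw [levelGroup, GG, MonoidHom.map_range]
  ext g
  constructor
  · rintro ⟨c, rfl⟩
    exact ⟨Multiplicative.ofAdd (restr d n c.toAdd), rfl⟩
  · rintro ⟨c, rfl⟩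
    refine ⟨Multiplicative.ofAdd fun j => if h : j < n then c.toAdd ⟨j, h⟩ else 0, ?_⟩
    change actPerm n i (restr d n fun j => if h : j < n then c.toAdd ⟨j, h⟩ else 0) =
      actPerm n i c.toAdd
    congr 1
    funext j
    simp [restr]

/-- The number of parameters with a fixed vertex. -/
def cnt (d : ℕ) [NeZero d] (n : ℕ) (i : ℕ → Bool) : ℕ :=
  (Finset.univ.filter fun c : Level d n => ∃ w, act n i c w = w).card

theorem proportion_hom {A B : Type*} [Group A] [Fintype A] [Group B] (φ : A →* B) (P : B → Prop) :
    (Nat.card {g : φ.range // P g} : ℝ) / Nat.card φ.range =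
      (Nat.card {a : A // P (φ a)} : ℝ) / Nat.card A := by
  classical
  -- the map `A → range` has fibres of equal size
  have key : ∀ Q : B → Prop, Nat.card {a : A // Q (φ a)} =
      Nat.card φ.ker * Nat.card {g : φ.range // Q g} := by
    intro Q
    rw [← Nat.card_prod]
    apply Nat.card_congr
    let s : φ.range → A := fun g => Classical.choose g.2
    have hs : ∀ g, φ (s g) = g := fun g => Classical.choose_spec g.2
    refine
      { toFun := fun a => (⟨a.1 * (s ⟨φ a.1, a.1, rfl⟩)⁻¹, by
          rw [MonoidHom.mem_ker, map_mul, map_inv, hs, mul_inv_cancel]⟩, ⟨⟨φ a.1, a.1, rfl⟩, a.2⟩)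
        invFun := fun x => ⟨x.1.1 * s x.2.1, by
          rw [map_mul, x.1.2, one_mul, hs]
          exact x.2.2⟩
        left_inv := ?_
        right_inv := ?_ }
    · rintro ⟨a, ha⟩
      simp
    · rintro ⟨⟨a, ha⟩, ⟨⟨b, hb⟩, hQ⟩⟩
      have h1 : φ (a * s ⟨b, hb⟩) = b := by
        rw [map_mul, ha, one_mul, hs]
      simp [h1]
  have h1 := key P
  have h2 := key fun _ => True
  have h3 : Nat.card {a : A // (fun _ : B => True) (φ a)} = Nat.card A :=
    Nat.card_congr (Equiv.subtypeUnivEquiv fun _ => trivial)
  have h4 : Nat.card {g : φ.range // (fun _ : B => True) (g : B)} = Nat.card φ.range :=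
    Nat.card_congr (Equiv.subtypeUnivEquiv fun _ => trivial)
  rw [h3, h4] at h2
  rw [h1, h2]
  have hk : (Nat.card φ.ker : ℝ) ≠ 0 := by
    have : 0 < Nat.card φ.ker := Nat.card_pos
    exact_mod_cast this.ne'
  have hr : (Nat.card φ.range : ℝ) ≠ 0 := by
    have : Finite φ.range := Set.finite_range φ |>.to_subtype
    have : 0 < Nat.card φ.range := Nat.card_pos
    exact_mod_cast this.ne'
  push_cast
  field_simp

theorem proportion_GG (i : ℕ → Bool) (n : ℕ) :
    proportion (GG (d := d) i) n = (cnt d n i : ℝ) / (d : ℝ) ^ n := by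
  rw [proportion, levelGroup_GG]
  have h := proportion_hom (A := Multiplicative (Level d n)) (B := Equiv.Perm (Level d n))
    (actHom n i) (fun g => ∃ v : Level d n, g v = v)
  rw [h]
  congr 1
  · have h1 : cnt d n i = Nat.card {c : Level d n // ∃ w, act n i c w = w} := by
      rw [cnt, ← Fintype.card_subtype, ← Nat.card_eq_fintype_card]
    rw [h1]
    rfl
  · have : Nat.card (Multiplicative (Level d n)) = d ^ n := by
      rw [Nat.card_eq_fintype_card, Fintype.card_multiplicative]
      simp
    rw [this]
    push_cast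
    rfl

end Pool.Agent.X329.Fpp
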