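import Mathlib
import Pool.Agent.X329.Fpp.Act

/-!
# The fixed-point proportions of the groups
-/

set_option autoImplicit false

namespace Pool.Agent.X329.Fpp

open Filter Topology

variable {d : ℕ} [NeZero d]

/-- The parameters have a fixed vertex. -/
def Q (n : ℕ) (i : ℕ → Bool) (c : Level d n) : Prop := ∃ w, act n i c w = w

theorem Q_cons_true (n : ℕ) (i : ℕ → Bool) (h : i 0 = true) (x : Fin d) (c : Level d n) :
    Q (n + 1) i (Fin.cons x c) ↔ x = 0 ∧ Q n (fun j => i (j + 1)) c := by
  constructor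
  · rintro ⟨w, hw⟩
    rw [act, if_pos h, Fin.cons_zero, Fin.tail_cons] at hw
    have h0 := congrFun hw 0
    rw [Fin.cons_zero] at h0
    refine ⟨add_eq_left.1 h0, Fin.tail w, ?_⟩
    have := congrArg Fin.tail hw
    rwa [Fin.tail_cons] at this
  · rintro ⟨rfl, w, hw⟩
    refine ⟨Fin.cons 0 w, ?_⟩
    rw [act, if_pos h, Fin.cons_zero, Fin.cons_zero, Fin.tail_cons, Fin.tail_cons, hw, add_zero]

theorem Q_cons_false (hd : 2 ≤ d) (n : ℕ) (i : ℕ → Bool) (h : ¬ i 0 = true) (x : Fin d)
    (c : Level d n) :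
    Q (n + 1) i (Fin.cons x c) ↔ x = 0 ∨ Q n (fun j => i (j + 1)) c := by
  constructor
  · rintro ⟨w, hw⟩
    rw [act, if_neg h, Fin.cons_zero, Fin.tail_cons] at hw
    by_cases h0 : w 0 = 0
    · right
      rw [if_pos h0] at hw
      have := congrArg Fin.tail hw
      rw [Fin.tail_cons] at this
      exact ⟨_, this⟩
    · rw [if_neg h0] at hw
      have h1 := congrArg Fin.tail hw
      rw [Fin.tail_cons] at h1
      cases n with
      | zero => exact Or.inr ⟨Fin.tail w, rfl⟩
      | succ n =>
        left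
        have h2 := congrFun h1 0
        simp only [rot, Fin.val_zero, if_true] at h2
        exact add_eq_left.1 h2
  · rintro (rfl | ⟨w, hw⟩)
    · refine ⟨Fin.cons 1 0, ?_⟩
      have h1 : (1 : Fin d) ≠ 0 := by
        intro h1
        have := congrArg Fin.val h1
        rw [Fin.val_one', Fin.val_zero, Nat.mod_eq_of_lt (by omega)] at this
        omega
      rw [act, if_neg h, Fin.cons_zero, Fin.cons_zero, Fin.tail_cons, Fin.tail_cons, if_neg h1,
        rot_zero]
    · refine ⟨Fin.cons 0 w, ?_⟩
      rw [act, if_neg h, Fin.cons_zero, Fin.cons_zero, Fin.tail_cons, Fin.tail_cons, if_pos rfl, hw]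

open Classical in
theorem cnt_eq (n : ℕ) (i : ℕ → Bool) :
    cnt d n i = ∑ c : Level d n, if Q n i c then 1 else 0 := by
  rw [cnt, Finset.card_filter]
  refine Finset.sum_congr rfl fun c _ => ?_
  by_cases h : Q n i c
  · rw [if_pos h]
    exact if_pos h
  · rw [if_neg h]
    exact if_neg h

theorem sum_cons (n : ℕ) (F : Level d (n + 1) → ℕ) :
    ∑ c, F c = ∑ x : Fin d, ∑ c : Level d n, F (Fin.cons x c) := by
  rw [← Fintype.sum_prod_type' (fun (x : Fin d) (c : Level d n) => F (Fin.cons x c))]
  exact (Fintype.sum_equiv (Fin.consEquiv fun _ => Fin d) _ _ fun _ => rfl).symm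

theorem cnt_true (n : ℕ) (i : ℕ → Bool) (h : i 0 = true) :
    cnt d (n + 1) i = cnt d n (fun j => i (j + 1)) := by
  classical
  rw [cnt_eq, cnt_eq, sum_cons, Finset.sum_eq_single 0]
  · refine Finset.sum_congr rfl fun c _ => ?_
    rw [Q_cons_true n i h]
    simp
  · intro x _ hx
    apply Finset.sum_eq_zero
    intro c _
    rw [Q_cons_true n i h, if_neg (fun h' => hx h'.1)]
  · intro h'
    exact absurd (Finset.mem_univ _) h'

theorem cnt_false (hd : 2 ≤ d) (n : ℕ) (i : ℕ → Bool) (h : ¬ i 0 = true) :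
    cnt d (n + 1) i = d ^ n + (d - 1) * cnt d n (fun j => i (j + 1)) := by
  classical
  rw [cnt_eq, cnt_eq, sum_cons]
  have h1 : ∀ x : Fin d, (∑ c : Level d n, if Q (n + 1) i (Fin.cons x c) then 1 else 0) =
      if x = 0 then d ^ n else ∑ c : Level d n, if Q n (fun j => i (j + 1)) c then 1 else 0 := by
    intro x
    by_cases hx : x = 0
    · rw [if_pos hx]
      have : ∀ c : Level d n, (if Q (n + 1) i (Fin.cons x c) then 1 else 0) = 1 := by
        intro c
        rw [if_pos ((Q_cons_false hd n i h x c).2 (Or.inl hx))]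
      simp [this]
    · rw [if_neg hx]
      refine Finset.sum_congr rfl fun c _ => ?_
      rw [Q_cons_false hd n i h]
      simp [hx]
  simp only [h1]
  rw [Finset.sum_ite, Finset.sum_const, Finset.sum_const, Finset.filter_eq' Finset.univ (0 : Fin d),
    if_pos (Finset.mem_univ _), Finset.card_singleton, one_smul, smul_eq_mul]
  congr 2
  rw [Finset.filter_ne' Finset.univ (0 : Fin d), Finset.card_erase_of_mem (Finset.mem_univ _),
    Finset.card_univ, Fintype.card_fin]

/-- The proportion. -/
noncomputable def prop (d : ℕ) [NeZero d] (n : ℕ) (i : ℕ → Bool) : ℝ := (cnt d n i : ℝ) / (d : ℝ) ^ n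

theorem prop_zero (i : ℕ → Bool) : prop d 0 i = 1 := by
  rw [prop, pow_zero, div_one]
  have : cnt d 0 i = 1 := by
    classical
    rw [cnt_eq]
    have : ∀ c : Level d 0, (if Q 0 i c then 1 else 0) = 1 := fun c => if_pos ⟨c, rfl⟩
    simp [this]
  exact_mod_cast this

theorem prop_true (n : ℕ) (i : ℕ → Bool) (h : i 0 = true) :
    prop d (n + 1) i = prop d n (fun j => i (j + 1)) / d := by
  rw [prop, prop, cnt_true n i h, pow_succ, div_div]

theorem prop_false (hd : 2 ≤ d) (n : ℕ) (i : ℕ → Bool) (h : ¬ i 0 = true) :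
    prop d (n + 1) i = 1 / d + (1 - 1 / d) * prop d n (fun j => i (j + 1)) := by
  have h0 : (d : ℝ) ≠ 0 := by
    have : d ≠ 0 := by omega
    exact_mod_cast this
  rw [prop, prop, cnt_false hd n i h]
  have h1 : ((d - 1 : ℕ) : ℝ) = d - 1 := by
    rw [Nat.cast_sub (by omega), Nat.cast_one]
  push_cast [h1]
  field_simp
  ring

/-- The map whose itineraries are used. -/
noncomputable def step (d : ℕ) (x : ℝ) : ℝ :=
  if x ≤ 1 / d then d * x else (x - 1 / d) / (1 - 1 / d)

/-- The itinerary of a point. -/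
noncomputable def itin (d : ℕ) (x : ℝ) (k : ℕ) : Bool :=
  open Classical in decide ((step d)^[k] x ≤ 1 / d)

theorem itin_succ (d : ℕ) (x : ℝ) : (fun j => itin d x (j + 1)) = itin d (step d x) := by
  funext j
  rw [itin, itin, Function.iterate_succ_apply]

theorem bound (hd : 2 ≤ d) (n : ℕ) : ∀ x : ℝ, 0 ≤ x → x ≤ 1 →
    |prop d n (itin d x) - x| ≤ (1 - 1 / (d : ℝ)) ^ n := by
  have hd' : (2 : ℝ) ≤ d := by exact_mod_cast hd
  have hd0 : (0 : ℝ) < d := by linarith
  have hinv : 1 / (d : ℝ) ≤ 1 / 2 := one_div_le_one_div_of_le (by norm_num) hd'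
  have hinv0 : 0 < 1 / (d : ℝ) := by positivity
  induction n with
  | zero =>
    intro x hx hx1
    rw [prop_zero, pow_zero, abs_le]
    constructor <;> linarith
  | succ n ih =>
    intro x hx hx1
    by_cases h : x ≤ 1 / d
    · have h0 : itin d x 0 = true := decide_eq_true h
      have hs : step d x = d * x := if_pos h
      have hs0 : 0 ≤ step d x := by rw [hs]; positivity
      have hs1 : step d x ≤ 1 := by
        rw [hs]
        calc d * x ≤ d * (1 / d) := by gcongr
          _ = 1 := by field_simp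
      have h1 := ih (step d x) hs0 hs1
      rw [prop_true n _ h0, itin_succ]
      have h2 : prop d n (itin d (step d x)) / d - x =
          (1 / d) * (prop d n (itin d (step d x)) - step d x) := by
        rw [hs]
        field_simp
      rw [h2, abs_mul, abs_of_pos hinv0, pow_succ, mul_comm]
      have h3 : 0 ≤ (1 - 1 / (d : ℝ)) ^ n := pow_nonneg (by linarith) n
      calc |prop d n (itin d (step d x)) - step d x| * (1 / d) ≤
          (1 - 1 / (d : ℝ)) ^ n * (1 / d) := by gcongr
        _ ≤ (1 - 1 / (d : ℝ)) ^ n * (1 - 1 / (d : ℝ)) := by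
          apply mul_le_mul_of_nonneg_left _ h3
          linarith
    · have h0 : ¬ itin d x 0 = true := fun h' => h (of_decide_eq_true h')
      have hs : step d x = (x - 1 / d) / (1 - 1 / d) := if_neg h
      have hpos : 0 < 1 - 1 / (d : ℝ) := by linarith
      have hs0 : 0 ≤ step d x := by
        rw [hs]
        exact div_nonneg (by linarith) hpos.le
      have hs1 : step d x ≤ 1 := by
        rw [hs, div_le_one hpos]
        linarith
      have h1 := ih (step d x) hs0 hs1
      rw [prop_false hd n _ h0, itin_succ]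
      have h2 : 1 / (d : ℝ) + (1 - 1 / d) * prop d n (itin d (step d x)) - x =
          (1 - 1 / d) * (prop d n (itin d (step d x)) - step d x) := by
        rw [hs]
        have h4 := hpos.ne'
        rw [mul_sub, mul_div_cancel₀ _ h4]
        ring
      rw [h2, abs_mul, abs_of_pos hpos, pow_succ, mul_comm]
      gcongr

/-- The group with the itinerary of `x` has fixed-point proportion `x`. -/
theorem hasFPP (hd : 2 ≤ d) (x : ℝ) (hx : 0 ≤ x) (hx1 : x ≤ 1) :
    HasFPP (GG (d := d) (itin d x)) x := by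
  have hd' : (2 : ℝ) ≤ d := by exact_mod_cast hd
  have hinv0 : 0 < 1 / (d : ℝ) := by positivity
  have hinv : 1 / (d : ℝ) ≤ 1 / 2 := one_div_le_one_div_of_le (by norm_num) hd'
  rw [HasFPP, tendsto_iff_dist_tendsto_zero]
  have hlim : Tendsto (fun n : ℕ => (1 - 1 / (d : ℝ)) ^ n) atTop (𝓝 0) :=
    tendsto_pow_atTop_nhds_zero_of_lt_one (by linarith) (by linarith)
  refine squeeze_zero (fun n => dist_nonneg) (fun n => ?_) hlim
  rw [Real.dist_eq, proportion_GG]
  exact bound hd n x hx hx1

end Pool.Agent.X329.Fpp
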